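import Pool.Agent.N24.CM.Comm

/-!
# Groups acting on trees with commensurable stabilizers

`C` is any class of groups with the closure properties `ClosedE C`, all of which are known for the
class of the groups that satisfy the Farrell–Jones conjecture with coefficients in additive categories
and finite wreath products.

Let `G` act on a tree, let `N` be a normal subgroup of `G` with `G ⧸ N` in `C`, and let `N_x` be the
stabilizer of the vertex `x` in `N`. Suppose that

* `N_x ∩ N_y` has finite index in `N_y` for adjacent vertices `x`, `y`;
* no `N_x` has a nontrivial finite normal subgroup (for instance `N` is torsion-free);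
* for one vertex `o` all nontrivial conjugacy classes of `N_o` are infinite (`N_o` is icc);
* the abstract commensurator `Comm N_o` is in `C`, or there is a homomorphism from `G` to some group in
  `C` such that each element of the kernel centralizes a subgroup of finite index of `N_o`.

Then `G` is in `C`. For `N = G` these are the fundamental groups of graphs of groups in which the edge
groups have finite index in the vertex groups (generalized Baumslag–Solitar groups). The vertex
groups may be, for instance,

* irreducible lattices in semisimple Lie groups of higher rank without centre, or arithmetic lattices:
  their commensurators are linear groups over number fields (Borel, Margulis);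
* subgroups of finite index of mapping class groups modulo centre, Torelli groups or Johnson kernels:
  their commensurators are extended mapping class groups (Ivanov, Farb–Ivanov, Brendle–Margalit).

Outline of the proof. The abstract commensurator is defined as the group of units of the monoid of
the germs of homomorphisms from subgroups of finite index of `P` to `P`. The group `G` acts on `N` by
conjugation, and maps `N_o` to a commensurable subgroup; this gives a homomorphism from `G` to
`Comm N_o`. The elements of its kernel centralize subgroups of finite index of `N_o`, so the kernel
meets `N_o` trivially and its intersection with `N_x` is a finite normal subgroup of `N_x`, which is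
trivial. So the homomorphism from `G` to `Comm N_o × G ⧸ N` is injective on all vertex stabilizers, and
one can apply the result `MP_2a0850_gt.TreeActions`.
-/

set_option autoImplicit false

namespace Pool.Agent.Results.MP_f7db47_al.CommensurableStabilizers

open Pool.Agent.Y110.FJ (ClosedE)
open Pool.Agent.N24.CM (Comm ICC)

theorem result {C : ∀ (G : Type) [Group G], Prop} (hC : ClosedE C)
    {G V : Type} [Group G] [MulAction G V] (T : SimpleGraph V) (hT : T.IsTree)
    (hact : ∀ (g : G) (x y : V), T.Adj x y → T.Adj (g • x) (g • y))
    (N : Subgroup G) [N.Normal] (hQ : C (G ⧸ N))
    (hfin : ∀ x y : V, T.Adj x y →
      (N ⊓ MulAction.stabilizer G x).relIndex (N ⊓ MulAction.stabilizer G y) ≠ 0)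
    (hfn : ∀ (x : V) (F : Subgroup ↥(N ⊓ MulAction.stabilizer G x)), F.Normal → Finite F → F = ⊥)
    (o : V) (hicc : ICC ↥(N ⊓ MulAction.stabilizer G o))
    (h : C (Comm ↥(N ⊓ MulAction.stabilizer G o)) ∨
      ∃ (Q : Type) (_ : Group Q) (ρ : G →* Q), C Q ∧ ∀ g : G, ρ g = 1 →
        (Subgroup.centralizer {g}).relIndex (N ⊓ MulAction.stabilizer G o) ≠ 0) : C G :=
  Pool.Agent.N24.CM.main hC T hT hact N hQ hfin hfn o hicc h

end Pool.Agent.Results.MP_f7db47_al.CommensurableStabilizers
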