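import Pool.Agent.N510.CT.KOne

set_option autoImplicit false

/-!
# `K_1` of group rings at the norm `3 / √2`

An invertible matrix over the group ring of any ring and any group whose support pattern has
operator norm at most `3 / √2` (the bound included) comes from virtually cyclic subgroups, and for
every larger bound each class of `K_1(RG)` has a representative with a pattern of such a norm, even
with coefficients in a given symmetric set of additive generators of `R`.
-/

namespace Pool.Agent.Results.MP_f7db47_al.CriticalNormKOne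

open TH57.Thr TH6.PF Matrix Pool.Agent.N510

/-- There are diagonal matrices of group elements such that `dmU R u * A * (dmU R v)⁻¹` is a block
sum of invertible matrices over group rings of virtually cyclic subgroups. -/
def IsBlockSum {R : Type} [Ring R] {G : Type} [Group G] {n : ℕ}
    (A : Matrix (Fin n) (Fin n) (MonoidAlgebra R G)) : Prop :=
  ∃ (ρ σ : Fin n → Fin n ⊕ Fin n) (u v : Fin n → G) (C : Fin n ⊕ Fin n → Subgroup G)
    (θ : ∀ a, Matrix {i // ρ i = a} {j // σ j = a} (MonoidAlgebra R (C a)))
    (η : ∀ a, Matrix {j // σ j = a} {i // ρ i = a} (MonoidAlgebra R (C a))),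
    (∀ a, IsVC (C a)) ∧ (∀ a, θ a * η a = 1 ∧ η a * θ a = 1) ∧
    (dmU R u).val * A * (dmU R v)⁻¹.val = blockSum ρ σ C θ

/-- For some `m` and some `C` in the commutator subgroup, `diag(A, 1_m) * C` has coefficients in
`S ∪ {0}` and a support pattern of norm at most `c`. -/
def HasRep {R : Type} [Ring R] {G : Type} [Group G] {n : ℕ}
    (A : Matrix (Fin n) (Fin n) (MonoidAlgebra R G)) (S : Set R) (c : ℝ) : Prop :=
  ∃ (m : ℕ) (C : (Matrix (Fin n ⊕ Fin m) (Fin n ⊕ Fin m) (MonoidAlgebra R G))ˣ),
    C ∈ commutator (Matrix (Fin n ⊕ Fin m) (Fin n ⊕ Fin m) (MonoidAlgebra R G))ˣ ∧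
    LT.CS S (fromBlocks A 0 0 1 * C.val) ∧ ThinLE (fromBlocks A 0 0 1 * C.val) c

/-- 1. Let the support pattern of the invertible matrix `A` over `RG` have norm at most `3 / √2`.
Then `A` is a product of invertible matrices over group rings of virtually cyclic subgroups, and
up to diagonal matrices of group elements it is a block sum of such matrices.
2. Let `c > 3 / √2` and let `S` be a set of additive generators of `R` with `1 ∈ S` and `-S = S`.
Then every invertible matrix over `RG` has, after stabilisation and up to a factor in the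
commutator subgroup, coefficients in `S ∪ {0}` and a support pattern of norm at most `c`. -/
theorem result :
    (∀ (R : Type) [Ring R] (G : Type) [Group G] (c : ℝ), 0 < c → c ^ 2 ≤ 9 / 2 →
      ∀ (n : ℕ) (A : (Matrix (Fin n) (Fin n) (MonoidAlgebra R G))ˣ), ThinLE A.val c →
      A ∈ VCGen R G (Fin n) ∧ IsBlockSum A.val) ∧
    ∀ (R : Type) [Ring R] [Nontrivial R] (S : Set R), LT.Gens S →
      ∀ (G : Type) [Group G] (c : ℝ), 9 / 2 < c ^ 2 →
      ∀ (n : ℕ) (A : (Matrix (Fin n) (Fin n) (MonoidAlgebra R G))ˣ), HasRep A.val S c :=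
  ⟨fun _ _ _ _ c hc0 hc _ A hA => CT.thin_below2 A c hc0 hc hA,
    fun _ _ _ _ hS _ _ c hc _ A => CT.sthin_red_fin hS A c hc⟩

end Pool.Agent.Results.MP_f7db47_al.CriticalNormKOne
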