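import Pool.Agent.N508.CS.Main
import Pool.Agent.N508.CS.Stab
import Pool.Agent.N508.CS.Qd
import Pool.Agent.N508.CS.Hom
import Pool.Agent.N508.CS.Finite
import Pool.Agent.N508.CS.Top
import Pool.Agent.N508.CS.Cyl
import Pool.Agent.N508.CS.Rz
import Pool.Agent.N508.CS.Ln
import Pool.Agent.N508.CS.Nrv

/-!
# Graphs of groups with edge groups of rank one and the Farrell-Jones conjecture

`C` is any class of groups with the closure properties `ClosedE C` which contains the metabelian
groups and satisfies `AcylF C`: a finitely generated group that acts on a tree without inversions, such
that the pointwise stabilizers of long paths have bounded order, is in `C` if the vertex stabilizers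
are in `C`. All this is known for the class of the groups whose wreath products with finite groups
satisfy the K-theoretic Farrell-Jones conjecture with coefficients (`AcylF` is a theorem of Knopf).

Let `G` act on a tree with vertex stabilizers in `C` and edge stabilizers of rank one: two elements
of infinite order of an edge stabilizer have a common nonzero power (`Er`), and its torsion subgroups
have bounded order (`Et`). Let `x` be an element of infinite order of the stabilizer of an edge at the
vertex `v`. Let `S` be the commensurator of `⟨x⟩` in the vertex group `G_v`, and let `I` be the set of
the elements of `G_v` which have a nonzero power in `⟨x⟩`. Suppose that `I` is contained in the centre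
of `S` and that `S / I` is in `C` (`RV`), or that `G_v` is torsion-free and locally nilpotent. Then `G`
is in `C`.

The conditions concern the vertex groups one by one; nothing is supposed about the elements of `G`
which conjugate powers of `x` to other powers of `x`, and `x` may be contained in the commutator
subgroup of `S`. For example, the HNN extensions and amalgamated products of torsion-free nilpotent
groups along infinite cyclic subgroups are in `C`, also if different powers of a central commutator are
conjugate. The vertex groups may be any mixture of torsion-free locally nilpotent groups, torsion-free
hyperbolic groups (`S = I` is cyclic) and groups like the fundamental groups of unit tangent bundles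
of closed surfaces with the edge groups in the fibre.

Outline of the proof. By the theorem on trees of cylinders (`Pool.Agent.N509`) one has to show that the
stabilizer `K` of a cylinder is in `C`. It acts on a subtree, and all edge stabilizers are
commensurable with `⟨z⟩`. The elements of `K_v` with a nonzero power in `⟨z⟩` form a central subgroup
`A(v)` of `K_v`, which contains the edge stabilizers at `v`. So the series `1 ≤ A(v) ≤ K_v` are
compatible and satisfy the conditions of the theorem on compatible series (`S_MAIN`): the subgroup
generated by all `A(v)` acts on the tree with abelian stabilizers, and the quotient is the fundamental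
group of a graph of groups with trivial edge groups and vertex groups `K_v / A(v)`. In torsion-free
locally nilpotent groups roots are unique and no different powers of a nontrivial element are
conjugate.
-/

set_option autoImplicit false

namespace Pool.Agent.Results.MP_f7db47_al.RankOneEdgeGroups

open Pool.Agent.Y110.FJ (ClosedE)
open Pool.Agent.N509.TX (AcylF Er Et Inf)
open Pool.Agent.N508.CS

theorem result (C : ∀ (G : Type) [Group G], Prop) (hC : ClosedE C)
    (hM : ∀ (G : Type) [Group G], derivedSeries G 2 = ⊥ → C G) (hA : AcylF C)
    {G V : Type} [Group G] [MulAction G V] (T : SimpleGraph V) (hT : T.IsTree)
    (hact : ∀ (g : G) (u v : V), T.Adj u v → T.Adj (g • u) (g • v))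
    (hV : ∀ v : V, C ↥(MulAction.stabilizer G v))
    (hEr : ∀ u v : V, T.Adj u v → Er G u v)
    (hEt : ∀ u v : V, T.Adj u v → ∃ n : ℕ, Et G n u v)
    (hx : ∀ v u : V, T.Adj v u → ∀ x : G, x • v = v → x • u = u → Inf x →
      RV C v x ∨ TfLn ↥(MulAction.stabilizer G v)) : C G := by
  refine t_rz (t_cyl (t_main (t_qd t_stab) t_h t_f t_top) t_abel) C hC hM hA G V T hT hact hV hEr hEt
    fun v u hvu x hv hu hi => ?_
  rcases hx v u hvu x hv hu hi with h | h
  · exact h
  · refine t_nrv t_ln t_cln C hC hM G V v h x hv ?_
    rintro rfl
    exact hi 1 one_ne_zero (one_zpow 1)

end Pool.Agent.Results.MP_f7db47_al.RankOneEdgeGroups
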