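import Pool.Agent.N316.NV.Mai
import Pool.Agent.N510.KC.Kgr

/-!
# One finitely generated group decides the rational injectivity of K-theoretic assembly

`R` is an arbitrary ring, `T` a group, `rat (kgr R)` is the functor `G ↦ ℚ ⊗ K₁(R[G])`, `hq j` is the
functor `G ↦ H_j(G; ℚ)`, and `α_{j,i} : H_j(G; ℚ) → ℚ ⊗ K₁(R[G × T])`, `i ∈ I_j`, is any family of
transformations natural in the group `G`, for instance the components of the classical assembly map
`H_1(BG; 𝐊_R) ⊗ ℚ → K₁(R[G]) ⊗ ℚ`, where `i` runs through a basis of `K_{1-j}(R) ⊗ ℚ`. Since `R` is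
arbitrary (suspensions of rings), this includes the assembly maps with values in `K_n(R[G])`, `n ≤ 1`.
The family is injective on `G` if the sum `⨁_{j,i} H_j(G; ℚ) → ℚ ⊗ K₁(R[G × T])` of its members is
injective.

There is a group `V` with three generators such that, with `Λ = ℤ[V]` (a finitely generated ring), the
following holds for all rings `R` and for all such families which are injective on `ℤ` (the assembly
maps are, by the theorem of Bass, Heller and Swan). If the family is injective on the elementary group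
`E_n(Λ)` for some `n ≥ 2`, or on any group between `E_n(Λ)` and `GL_n(Λ)`, or on `V`, then it is
injective on all groups.

New here is the continuity of the functor `ℚ ⊗ K₁(R[-])` along directed colimits of groups
(`Pool.Agent.N510.KC.cont_k1`).
-/

set_option autoImplicit false

namespace Pool.Agent.Results.MP_f7db47_al.UniversalGroup

open CategoryTheory Pool.Agent.Y483 Pool.Agent.Y75.MQ Pool.Agent.Y477.IW Pool.Agent.R615.K1
  Pool.Agent.N506 Pool.Agent.N316.NV

theorem result : ∃ (V : Type) (_ : Group V),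
    (∃ g : Fin 3 → V, Subgroup.closure (Set.range g) = ⊤) ∧
    (∃ s : Finset (MonoidAlgebra ℤ V), Subring.closure (s : Set (MonoidAlgebra ℤ V)) = ⊤) ∧
    ∀ (R : Type) [Ring R] (T : Type) [Group T] (I : ℕ → Type)
      (α : ∀ j : ℕ, I j → (hq j ⟶ timesF T ⋙ rat (kgr R))),
      Inj α (zn 1) → (Inj α V ∨ ∃ n : ℕ, 2 ≤ n ∧ ∃ H : Subgroup (GLn n (MonoidAlgebra ℤ V)),
        elem n (MonoidAlgebra ℤ V) ≤ H ∧ Inj α H) → ∀ (G : Type) [Group G], Inj α G := by
  obtain ⟨V, iV, h1, h2, h3, h4⟩ := universal
  refine ⟨V, iV, h1, h2, ?_⟩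
  intro R _ T _ I α hZ h G _
  rcases h with h | ⟨n, hn, H, hH, h⟩
  · refine h3 (rat (kgr R)) (Pool.Agent.N510.KC.cont_k1 R) G T I α ?_
    rintro B (rfl | rfl)
    · exact hZ
    · exact h
  · refine h4 n hn H hH (rat (kgr R)) (Pool.Agent.N510.KC.cont_k1 R) G T I α ?_
    rintro B (rfl | rfl)
    · exact hZ
    · exact h

end Pool.Agent.Results.MP_f7db47_al.UniversalGroup
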